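import Mathlib
import Pool.Agent.Work.MP_4b9821_co.L.Asym

/-!
Three-sunflower-free families of `l`-element sets, any two of which meet in at most two elements: lower
bounds for the largest size `M3 l 2` and for the largest size `I3 l 2` of an intersecting family.
-/

set_option autoImplicit false

namespace Pool.Agent.Results.MP_4b9821_co.LowerBound

open Pool.Agent.Work.MP_4b9821_co

theorem result :
    (∀ s t : ℕ, Odd s → 2 ^ s ≤ I3 t 2 → 3 * 4 ^ s ≤ I3 (2 ^ (s + 1) + t) 2) ∧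
    ∀ ε : ℝ, 0 < ε → ∀ L : ℕ, ∃ l ≥ L, (3 / 4 - ε) * (l : ℝ) ^ 2 ≤ I3 l 2 ∧
      (3 / 2 - ε) * (l : ℝ) ^ 2 ≤ M3 l 2 := by
  refine ⟨fun s t hs h => cube_I3 hs h, fun ε hε L => ?_⟩
  obtain ⟨l, hl, h⟩ := limsup_lower (ε / 2) (by positivity) (L + 1)
  refine ⟨l, by omega, h.trans' (mul_le_mul_of_nonneg_right (by linarith) (sq_nonneg _)), ?_⟩
  have : 2 * (I3 l 2 : ℝ) ≤ M3 l 2 := by
    exact_mod_cast two_mul_I3_le (l := l) (by omega)
  linarith

end Pool.Agent.Results.MP_4b9821_co.LowerBound
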