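import Mathlib
import Pool.Agent.Work.MP_4b9821_co.L.Asym

/-!
Three-sunflower-free intersecting families of `l`-element sets, any two of which meet in at most two
elements, for `l` a little larger than a prime.
-/

set_option autoImplicit false

namespace Pool.Agent.Results.MP_4b9821_co.LowerBoundPrimes

open Pool.Agent.Work.MP_4b9821_co

theorem result : ∀ p : ℕ, p.Prime → p ≠ 2 →
    p ^ 2 ≤ 2 * I3 (p + 5 * (Nat.sqrt p + 1)) 2 + 1 := by
  intro p hp hp2
  have h1 : p < (Nat.sqrt p + 1) * (Nat.sqrt p + 1) := Nat.lt_succ_sqrt p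
  have h2 : (p - 1) / 2 ≤ I3 (5 * (Nat.sqrt p + 1)) 2 := by
    set r := Nat.sqrt p with hr
    rcases le_or_gt 4 r with h | h
    · have h3 := I3_lower (t := 5 * (r + 1)) (by omega)
      have h4 : (5 * (r + 1)) ^ 2 = 25 * ((r + 1) * (r + 1)) := by ring
      omega
    · obtain ⟨F, hF, hI, hc⟩ := star (l := 5 * (r + 1)) (by omega)
      have h3 := le_I3 hF hI
      rw [hc] at h3
      have h4 : (r + 1) * (r + 1) ≤ 4 * (r + 1) := Nat.mul_le_mul_right _ (by omega)
      omega
  have h3 := plane_I3 hp hp2 h2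
  omega

end Pool.Agent.Results.MP_4b9821_co.LowerBoundPrimes
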