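import Mathlib
import Pool.Agent.Work.MP_4b9821_co.L.Transfer

/-!
Three-sunflower-free families of `l`-element sets, any two of which meet in at most two elements: upper
bounds for the largest size `M3 l 2` and for the largest size `I3 l 2` of an intersecting family.
-/

set_option autoImplicit false

namespace Pool.Agent.Results.MP_4b9821_co.UpperBound

open Pool.Agent.Work.MP_4b9821_co

theorem result : ∀ l ≥ 3, (∀ F : Finset (Finset ℕ), Adm l 2 F →
      5 * F.card ≤ 12 * l ^ 2 + 6 * l + 18 ∧
        (Pool.Agent.Work.MP_4b9821_co.Inter F → 10 * F.card ≤ 9 * l ^ 2 + 17 * l + 26)) ∧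
    2 * M3 l 2 + l ≤ 2 * I3 l 2 + 3 * l ^ 2 + 2 := by
  refine fun l hl => ⟨fun F hF => ⟨?_, fun hI => inter_bound hF hI hl⟩, two_mul_M3_le (by omega)⟩
  have h1 := le_M3 hF
  have h2 := two_mul_M3_le (l := l) (by omega)
  have h3 := ten_mul_I3_le hl
  omega

end Pool.Agent.Results.MP_4b9821_co.UpperBound
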